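import Pool.Agent.N71.BI.Stm
import Pool.Agent.H705R2.MLogB
import Pool.Agent.Helper51.Moser.LFunPartial
import Pool.Agent.H38R2.CG.KR
import Pool.Agent.H38R2.CG.N0
import Pool.Agent.H38R2.CG.N0d
import Pool.Agent.H38R2.CG.N0e
import Pool.Agent.H38R2.CG.N2
import Pool.Agent.H38R2.CG.N3
import Pool.Agent.H38R2.CG.N3a
import Pool.Agent.H38R2.CG.N3b
import Pool.Agent.H38R2.CG.PV
import Pool.Agent.H38R2.CG.SPL

/-! Project BI, part SIE: Siegel's lower bound for `Lone D`. -/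

set_option autoImplicit false

namespace Pool.Agent.N617.BI

open Finset Filter Topology Pool.Agent.H38R2.CG

/-- the character of `chi D` is real -/
theorem sq_one {D : ℕ} (hD : 1 < D) (χ : DirichletCharacter ℂ D)
    (hχ : ∀ n : ℕ, 1 ≤ n → χ (n : ZMod D) = (chi D n : ℂ)) : χ ^ 2 = 1 := by
  haveI : NeZero D := ⟨by omega⟩
  ext a
  rw [MulChar.pow_apply_coe, MulChar.one_apply_coe]
  have h0 : (a : ZMod D).val ≠ 0 := by
    intro h
    have h1 : (a : ZMod D) = 0 := (ZMod.val_eq_zero _).1 h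
    haveI : Nontrivial (ZMod D) := ZMod.nontrivial_iff.2 (by omega)
    exact a.ne_zero h1
  have h1 := hχ (a : ZMod D).val (by omega)
  rw [ZMod.natCast_zmod_val] at h1
  have h2 : ‖χ (a : ZMod D)‖ = 1 := χ.unit_norm_eq_one a
  rw [h1, Complex.norm_intCast] at h2
  have h3 : |chi D (a : ZMod D).val| = 1 := by exact_mod_cast h2
  rw [h1]
  rcases abs_eq_abs.1 (h3.trans abs_one.symm) with h | h <;> rw [h] <;> norm_num

theorem lone_eq {D : ℕ} (hD : IsFund D) [NeZero D] (χ : DirichletCharacter ℂ D) (h1 : χ ≠ 1)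
    (hχ : ∀ n : ℕ, 1 ≤ n → χ (n : ZMod D) = (chi D n : ℂ)) :
    DirichletCharacter.LFunction χ 1 = (Lone D : ℂ) := by
  have ha := (Pool.Agent.Helper51.Moser.tendsto_LFunction_one χ h1).comp (tendsto_add_atTop_nat 1)
  obtain ⟨C, hC, hN⟩ := T_N3a T_KR T_PV
  have hb : Tendsto (fun N : ℕ => ∑ n ∈ Finset.Icc 1 N, (chi D n : ℝ) / n) atTop (nhds (Lone D)) := by
    rw [tendsto_iff_norm_sub_tendsto_zero]
    have hlim : Tendsto (fun N : ℕ => C * √(D : ℝ) * Real.log D / N) atTop (nhds 0) :=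
      tendsto_const_div_atTop_nhds_zero_nat _
    refine squeeze_zero' (Eventually.of_forall fun N => norm_nonneg _) ?_ hlim
    filter_upwards [eventually_ge_atTop 1] with N hN1
    rw [Real.norm_eq_abs, abs_sub_comm]
    exact hN D hD N hN1
  have hc : Tendsto (fun N : ℕ => ((∑ n ∈ Finset.Icc 1 N, (chi D n : ℝ) / n : ℝ) : ℂ)) atTop
      (nhds (Lone D : ℂ)) := (Complex.continuous_ofReal.tendsto _).comp hb
  refine tendsto_nhds_unique ha (hc.congr fun N => ?_)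
  simp only [Function.comp_apply]
  rw [Finset.sum_range_eq_add_Ico _ (Nat.succ_pos N)]
  have e : Finset.Ico 1 (N + 1) = Finset.Icc 1 N := by
    ext n; simp only [Finset.mem_Ico, Finset.mem_Icc]; omega
  rw [e]
  push_cast
  simp only [CharP.cast_eq_zero, div_zero, zero_add]
  refine Finset.sum_congr rfl fun n hn => ?_
  rw [hχ n (Finset.mem_Icc.1 hn).1]

theorem lone_nonneg {D : ℕ} (hD : IsFund D) : 0 ≤ Lone D := by
  have h2 : P_N2 := T_N2 (T_SPL T_N0)
  have h3a : P_N3a := T_N3a T_KR T_PV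
  have h3b : P_N3b := T_N3b T_KR T_PV h3a
  obtain ⟨K, i1, i2, hK, hdK⟩ := T_N0e T_N0d D hD
  exact (T_N3 h2 h3b K D hD hK hdK).1

theorem t_SIE : Pool.Agent.N71.BI.E_SIE := by
  intro ε hε
  obtain ⟨c, hc, hS⟩ := Pool.Agent.H705R2.MSW.siegel_all hε
  refine ⟨c, hc, fun D hD => ?_⟩
  haveI : NeZero D := ⟨by have := hD.1; omega⟩
  obtain ⟨χ, h1, hχ⟩ := T_KR D hD
  have h := hS D χ (sq_one hD.1 χ hχ) h1
  rw [lone_eq hD χ h1 hχ, Complex.norm_real, Real.norm_eq_abs, abs_of_nonneg (lone_nonneg hD)] at h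
  exact h

end Pool.Agent.N617.BI
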